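import Pool.Agent.Helper98.Loew.Main

/-!
# Convex bodies near the ball with exactly one centroidal plane

The construction of `Pool.Agent.Helper98.Loew.Main` with an arbitrarily small perturbation of the
ball and a record of the analytic radial function.
-/

set_option autoImplicit false

open MeasureTheory Real Set Metric Module
open scoped RealInnerProductSpace ContDiff

namespace Pool.Agent.Y370.Loew

open _root_.Loewner

noncomputable section

theorem Wf_analytic (τ : ℝ) : ContDiff ℝ ω (Wf τ) := by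
  unfold Wf wtau wpol q0 q1 q2
  fun_prop

/-- the main statement in the normalised position -/
theorem nearMain (η : ℝ) (hη : 0 < η) : ∃ (h : E3 → ℝ), ContDiff ℝ ω h ∧
    (∀ x : E3, ‖x‖ = 1 → |h x - 1| ≤ η) ∧
    ∃ K : Set E3, K = starSet h ∧ IsCompact K ∧ Convex ℝ K ∧ (0 : E3) ∈ interior K ∧
    (∫ x in K, x) = 0 ∧
    ∃! H : AffineSubspace ℝ E3, finrank ℝ H.direction = 2 ∧ (0 : E3) ∈ H ∧
      (⨍ x in K ∩ (H : Set E3), x ∂(μHE[2] : Measure E3)) = 0 := by
  obtain ⟨C, g, hCpos, hCW, hCg, hCT⟩ := taylor_bound (Wf 0) (Wf_contDiff 0)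
  obtain ⟨ε, hε, hε1, hε2, hε3⟩ : ∃ ε : ℝ, 0 < ε ∧ ε * (C + 1) ≤ 1 / 2 ∧
      ε * (C + 1) ^ 2 ≤ 1 / 50 ∧ ε * (C + 1) ≤ η := by
    have hD : 1 ≤ C + 1 := by linarith
    have h1 : 0 < min (1 / 50) η := lt_min (by norm_num) hη
    refine ⟨min (1 / 50) η / (C + 1) ^ 2, by positivity, ?_, ?_, ?_⟩
    · have h : min (1 / 50) η / (C + 1) ^ 2 * (C + 1) = min (1 / 50) η / (C + 1) := by field_simp
      rw [h, div_le_iff₀ (by positivity)]
      have := min_le_left (1 / 50) η
      nlinarith
    · have h : min (1 / 50) η / (C + 1) ^ 2 * (C + 1) ^ 2 = min (1 / 50) η := by field_simp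
      rw [h]; exact min_le_left _ _
    · have h : min (1 / 50) η / (C + 1) ^ 2 * (C + 1) = min (1 / 50) η / (C + 1) := by field_simp
      rw [h, div_le_iff₀ (by positivity)]
      have := min_le_right (1 / 50) η
      nlinarith
  obtain ⟨τ, hτ, hZ⟩ := exists_tau C ε hCpos hCW hε hε1 hε2
  have hWb : ∀ x : E3, ‖x‖ ≤ 1 → |ε * Wf τ x| ≤ 1 / 2 := by
    intro x hx
    rw [abs_mul, abs_of_pos hε]
    exact (mul_le_mul_of_nonneg_left (Wf_bound C hCW τ hτ x hx) hε.le).trans hε1
  have hlow : ∀ x : E3, ‖x‖ = 1 → 1 / 2 ≤ hf ε τ x := by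
    intro x hx
    have := abs_le.mp (hWb x hx.le)
    unfold hf; linarith [this.1]
  have hup : ∀ x : E3, ‖x‖ = 1 → hf ε τ x ≤ 2 := by
    intro x hx
    have := abs_le.mp (hWb x hx.le)
    unfold hf; linarith [this.2]
  have h0 : 0 ≤ hf ε τ 0 := by
    have := abs_le.mp (hWb 0 (by simp))
    unfold hf; linarith [this.1]
  have hpos : ∀ x : E3, ‖x‖ = 1 → 0 < hf ε τ x := fun x hx => by linarith [hlow x hx]
  -- convexity
  obtain ⟨hconv, hclosed⟩ := starSet_convex (hf ε τ) (fun x => ε • (g x + τ • vec 0 0 1))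
    (ε * (C + 1)) h0 hlow (by
      intro x hx
      rw [norm_smul, Real.norm_of_nonneg hε.le]
      apply mul_le_mul_of_nonneg_left _ hε.le
      refine (norm_add_le _ _).trans ?_
      rw [norm_smul, norm_vec 0 0 1 (by norm_num), Real.norm_eq_abs]
      linarith [hCg x hx.le]) (by
      intro x y hx hy
      have h := hCT x y hx.le hy.le
      have hv : ⟪vec 0 0 1, y - x⟫ = (y - x) 2 := by
        unfold vec
        rw [PiLp.inner_apply, Fin.sum_univ_three]
        simp
      have e : hf ε τ y - hf ε τ x - ⟪ε • (g x + τ • vec 0 0 1), y - x⟫ =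
          ε * (Wf 0 y - Wf 0 x - ⟪g x, y - x⟫) := by
        unfold hf
        rw [Wf_eq τ y, Wf_eq τ x, real_inner_smul_left, inner_add_left, real_inner_smul_left, hv,
          PiLp.sub_apply]
        ring
      rw [e, abs_mul, abs_of_pos hε, mul_assoc]
      apply mul_le_mul_of_nonneg_left _ hε.le
      refine h.trans ?_
      apply mul_le_mul_of_nonneg_right (by linarith) (sq_nonneg _)) hε1
  set K := starSet (hf ε τ) with hK
  have hbdd := starSet_bdd (hf ε τ) hup
  have hball := starSet_ball (hf ε τ) h0 hlow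
  have hcomp : IsCompact K := (isCompact_closedBall (0 : E3) 2).of_isClosed_subset hclosed hbdd
  have hint : (0 : E3) ∈ interior K := by
    rw [mem_interior]
    exact ⟨ball 0 (1 / 2), hball, isOpen_ball, by simp⟩
  have hbd : Bornology.IsBounded K := hcomp.isBounded
  refine ⟨hf ε τ, ?_, ?_, K, hK, hcomp, hconv, hint, ?_, ?_⟩
  · unfold hf
    exact contDiff_const.add (contDiff_const.mul (Wf_analytic τ))
  · intro x hx
    have e : hf ε τ x - 1 = ε * Wf τ x := by unfold hf; ring
    rw [e, abs_mul, abs_of_pos hε]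
    exact (mul_le_mul_of_nonneg_left (Wf_bound C hCW τ hτ x hx.le) hε.le).trans hε3
  · -- centroid
    have hI : IntegrableOn (fun x : E3 => x) K volume :=
      continuous_id.continuousOn.integrableOn_compact hcomp
    have comp : ∀ i : Fin 3, (∫ x in K, x) i = ∫ x in K, x i := by
      intro i
      have := (EuclideanSpace.proj i : E3 →L[ℝ] ℝ).integral_comp_comm hI
      simpa using this.symm
    have hsym : ∀ x y z : ℝ, (fun v : E3 => (hf ε τ v) ^ (4 / 3 : ℝ))
        (!₂[-x / 2 - √3 / 2 * y, √3 / 2 * x - y / 2, z]) =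
        (fun v : E3 => (hf ε τ v) ^ (4 / 3 : ℝ)) (!₂[x, y, z]) := by
      intro x y z
      simp only
      unfold hf
      rw [Wf_rot]
    have hor := sphere_horizontal (fun v : E3 => (hf ε τ v) ^ (4 / 3 : ℝ))
      ((hf_cont ε τ).rpow_const (fun _ => Or.inr (by norm_num))) hsym
    apply ext3
    · rw [comp, volume_moment _ (hf_cont ε τ) hpos 0]
      simp only at hor
      rw [hor.1]; simp
    · rw [comp, volume_moment _ (hf_cont ε τ) hpos 1]
      simp only at hor
      rw [hor.2]; simp
    · rw [comp, volume_moment _ (hf_cont ε τ) hpos 2]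
      have : (∫ θ : sphere (0 : E3) 1, (hf ε τ θ) ^ (4 / 3 : ℝ) * (θ : E3) 2 ∂(volume : Measure E3).toSphere) = 0 := hZ
      rw [this]; simp
  · -- the unique plane
    have hcrit : ∀ (κ σ z s : ℝ) (h1 : κ ^ 2 + σ ^ 2 = 1) (h2 : z ^ 2 + s ^ 2 = 1)
        (H : AffineSubspace ℝ E3) (hH : (H : Set E3) = Set.range
        (fun c : ℂ => c.re • vec (-σ) κ 0 + c.im • vec (z * κ) (z * σ) (-s))),
        (⨍ x in K ∩ (H : Set E3), x ∂(μHE[2] : Measure E3)) = 0 ↔
        ((∫ t in (-π)..π, wtau τ (-σ * cos t + z * κ * sin t) (κ * cos t + z * σ * sin t)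
          (-s * sin t) * cos t) = 0 ∧
        (∫ t in (-π)..π, wtau τ (-σ * cos t + z * κ * sin t) (κ * cos t + z * σ * sin t)
          (-s * sin t) * sin t) = 0) := by
      intro κ σ z s h1 h2 H hH
      have ha : ‖vec (-σ) κ 0‖ = 1 := norm_vec _ _ _ (by linear_combination h1)
      have hb : ‖vec (z * κ) (z * σ) (-s)‖ = 1 :=
        norm_vec _ _ _ (by linear_combination z ^ 2 * h1 + h2)
      have hab : ⟪vec (-σ) κ 0, vec (z * κ) (z * σ) (-s)⟫ = 0 := by rw [inner_vec]; ring
      rw [plane_section K hclosed.measurableSet hbd hint _ _ ha hb hab H hH]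
      obtain ⟨f1, f2⟩ := section_formula ε τ κ σ z s hpos h1 h2
      rw [f1, f2]
      constructor
      · rintro ⟨a, b⟩
        constructor
        · have : ε * (∫ t in (-π)..π, wtau τ (-σ * cos t + z * κ * sin t) (κ * cos t + z * σ * sin t)
            (-s * sin t) * cos t) = 0 := by linarith
          rcases mul_eq_zero.mp this with h | h
          · exact absurd h hε.ne'
          · exact h
        · have : ε * (∫ t in (-π)..π, wtau τ (-σ * cos t + z * κ * sin t) (κ * cos t + z * σ * sin t)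
            (-s * sin t) * sin t) = 0 := by linarith
          rcases mul_eq_zero.mp this with h | h
          · exact absurd h hε.ne'
          · exact h
      · rintro ⟨a, b⟩
        rw [a, b]; simp
    obtain ⟨H0, hd0, hz0, hH0⟩ := plane_exists 1 0 1 0 (by norm_num) (by norm_num)
    have hset : ∀ (κ σ z : ℝ), κ ^ 2 + σ ^ 2 = 1 → z ^ 2 = 1 →
        Set.range (fun c : ℂ => c.re • vec (-σ) κ 0 + c.im • vec (z * κ) (z * σ) (-0)) =
        {x : E3 | x 2 = 0} := by
      intro κ σ z h1 h2
      ext x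
      constructor
      · rintro ⟨c, rfl⟩
        simp [vec]
      · intro hx
        have hx' : x 2 = 0 := hx
        refine ⟨⟨-σ * x 0 + κ * x 1, z * (κ * x 0 + σ * x 1)⟩, ?_⟩
        apply ext3
        · simp [vec]
          linear_combination (x 0) * h1 + (κ * (κ * x 0 + σ * x 1)) * h2
        · simp [vec]
          linear_combination (x 1) * h1 + (σ * (κ * x 0 + σ * x 1)) * h2
        · simp [vec, hx']
    refine ⟨H0, ⟨hd0, hz0, ?_⟩, ?_⟩
    · rw [hcrit 1 0 1 0 (by norm_num) (by norm_num) H0 hH0]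
      have c1 := circ_cos 1 0 1 0
      have c2 := circ_sin 1 0 1 0
      have g1 := G_add 1 0 (by norm_num)
      constructor
      · have : ∀ t : ℝ, wtau τ (-0 * cos t + 1 * 1 * sin t) (1 * cos t + 1 * 0 * sin t)
          (-0 * sin t) * cos t = wpol (-0 * cos t + 1 * 1 * sin t) (1 * cos t + 1 * 0 * sin t)
          (-0 * sin t) * cos t := by intro t; unfold wtau; ring
        simp_rw [this]
        rw [c1]; ring
      · have : ∀ t : ℝ, wtau τ (-0 * cos t + 1 * 1 * sin t) (1 * cos t + 1 * 0 * sin t)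
          (-0 * sin t) * sin t = wpol (-0 * cos t + 1 * 1 * sin t) (1 * cos t + 1 * 0 * sin t)
          (-0 * sin t) * sin t := by intro t; unfold wtau; ring
        simp_rw [this]
        rw [c2]
        linear_combination (-(2 * π)) * g1
    · rintro H ⟨hd, hz, hav⟩
      obtain ⟨κ, σ, z, s, h1, h2, hs, hH⟩ := plane_param H hd hz
      rw [hcrit κ σ z s h1 h2 H hH] at hav
      have hs0 : s = 0 := by
        by_contra hne
        exact moment_ne κ σ z s τ h1 h2 (lt_of_le_of_ne hs (Ne.symm hne)) hτ hav.1 hav.2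
      subst hs0
      have hz2 : z ^ 2 = 1 := by linarith
      apply SetLike.coe_injective
      rw [hH, hset κ σ z h1 hz2, hH0, hset 1 0 1 (by norm_num) (by norm_num)]


end

end Pool.Agent.Y370.Loew
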